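import Mathlib

set_option autoImplicit false

/-! Maximal irredundant sets in the three-dimensional rooks graph: auxiliary counting lemmas. -/

namespace Pool.Agent.H321.IR

open Finset

abbrev V (n : ℕ) := Fin 3 → Fin n

variable {n : ℕ}

/-- `u` and `w` agree outside of the coordinate `d` -/
def on (d : Fin 3) (u w : V n) : Prop := ∀ i, i ≠ d → u i = w i

instance (d : Fin 3) (u w : V n) : Decidable (on d u w) := by unfold on; infer_instance

/-- `w` is in the closed neighbourhood of `u` -/
def nr (u w : V n) : Prop := ∃ d, on d u w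

instance (u w : V n) : Decidable (nr u w) := by unfold nr; infer_instance

theorem on_refl (d : Fin 3) (u : V n) : on d u u := fun _ _ => rfl
theorem on_symm {d : Fin 3} {u w : V n} (h : on d u w) : on d w u := fun i hi => (h i hi).symm
theorem on_trans {d : Fin 3} {u w x : V n} (h : on d u w) (h' : on d w x) : on d u x :=
  fun i hi => (h i hi).trans (h' i hi)
theorem nr_refl (u : V n) : nr u u := ⟨0, on_refl 0 u⟩
theorem nr_symm {u w : V n} (h : nr u w) : nr w u := by
  obtain ⟨d, h⟩ := h; exact ⟨d, on_symm h⟩

theorem on_two {d e : Fin 3} (hde : d ≠ e) {u w : V n} (h : on d u w) (h' : on e u w) : u = w := by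
  funext i
  by_cases hi : i = d
  · exact h' i (by rw [hi]; exact hde)
  · exact h i hi

/-- the points on the line in direction `d` through `y` -/
theorem card_line_le (d : Fin 3) (y : V n) :
    (univ.filter (fun v : V n => on d v y)).card ≤ n := by
  have h1 : (univ.filter (fun v : V n => on d v y)).card ≤ (univ : Finset (Fin n)).card := by
    refine card_le_card_of_injOn (fun v => v d) (fun _ _ => mem_coe.2 (mem_univ _)) ?_
    intro v hv w hw h
    simp only [coe_filter, mem_univ, true_and, Set.mem_ofPred_eq] at hv hw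
    funext i
    by_cases hi : i = d
    · rw [hi]; exact h
    · rw [hv i hi, hw i hi]
  simpa using h1

/-- the number of members of `S` on the line in direction `d` through `y` -/
def ac (S : Finset (V n)) (d : Fin 3) (y : V n) : ℕ := (S.filter (fun v => on d v y)).card

/-- private neighbours -/
def P (S : Finset (V n)) (u : V n) : Finset (V n) :=
  univ.filter (fun w => nr u w ∧ ∀ u' ∈ S, u' ≠ u → ¬ nr u' w)

/-- vertices which are not dominated -/
def X (S : Finset (V n)) : Finset (V n) := univ.filter (fun x => ∀ u ∈ S, ¬ nr u x)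

/-- vertices dominated exactly once -/
def E1 (S : Finset (V n)) : Finset (V n) := S.biUnion (P S)

def XU (S : Finset (V n)) (u : V n) : Finset (V n) :=
  (X S).filter (fun x => ∀ w ∈ P S u, nr x w)

theorem mem_P {S : Finset (V n)} {u w : V n} :
    w ∈ P S u ↔ nr u w ∧ ∀ u' ∈ S, u' ≠ u → ¬ nr u' w := by simp [P]

theorem mem_X {S : Finset (V n)} {x : V n} : x ∈ X S ↔ ∀ u ∈ S, ¬ nr u x := by simp [X]

theorem card_P_le (S : Finset (V n)) (u : V n) : (P S u).card ≤ 3 * n := by
  have h1 : P S u ⊆ (univ : Finset (Fin 3)).biUnion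
      (fun d => univ.filter (fun v : V n => on d v u)) := by
    intro w hw
    obtain ⟨⟨d, hd⟩, -⟩ := mem_P.1 hw
    exact mem_biUnion.2 ⟨d, mem_univ _, by simpa using on_symm hd⟩
  calc (P S u).card ≤ _ := card_le_card h1
    _ ≤ ∑ d : Fin 3, (univ.filter (fun v : V n => on d v u)).card := card_biUnion_le
    _ ≤ ∑ d : Fin 3, n := sum_le_sum fun d _ => card_line_le d u
    _ = 3 * n := by simp

theorem sum_ac_le (S : Finset (V n)) (d : Fin 3) : ∑ y : V n, ac S d y ≤ n * S.card := by
  have h1 : ∑ y : V n, ac S d y = ∑ v ∈ S, (univ.filter (fun y : V n => on d v y)).card := by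
    simp only [ac, card_filter]
    rw [sum_comm]
  rw [h1]
  calc ∑ v ∈ S, (univ.filter (fun y : V n => on d v y)).card
      ≤ ∑ v ∈ S, n := sum_le_sum fun v _ => by
        have := card_line_le d v
        refine le_trans (le_of_eq ?_) this
        congr 1
        ext y
        simp only [mem_filter, mem_univ, true_and]
        exact ⟨on_symm, on_symm⟩
    _ = n * S.card := by simp [mul_comm]

/-- pointwise inequality -/
theorem point (S : Finset (V n)) (y : V n) :
    2 + ∑ d : Fin 3, (ac S d y - 2) + 2 * (if y ∈ S then 1 else 0) ≤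
      ∑ d : Fin 3, ac S d y + (if y ∈ E1 S then 1 else 0) + 2 * (if y ∈ X S then 1 else 0) := by
  by_cases hy : y ∈ S
  · have h1 : ∀ d, 1 ≤ ac S d y := fun d => card_pos.2 ⟨y, by simp [hy, on_refl]⟩
    by_cases h2 : ∀ d, ac S d y = 1
    · have h3 : y ∈ E1 S := by
        refine mem_biUnion.2 ⟨y, hy, mem_P.2 ⟨nr_refl y, ?_⟩⟩
        rintro u hu hne ⟨d, hd⟩
        obtain ⟨z, hz⟩ := card_eq_one.1 (h2 d)
        have e1 : y ∈ S.filter (fun v => on d v y) := by simp [hy, on_refl]
        have e2 : u ∈ S.filter (fun v => on d v y) := by simp [hu, hd]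
        rw [hz, mem_singleton] at e1 e2
        exact hne (e2.trans e1.symm)
      simp only [Fin.sum_univ_three, h2, hy, h3, if_true]
      omega
    · push Not at h2
      obtain ⟨d, hd⟩ := h2
      have h4 := h1 0; have h5 := h1 1; have h6 := h1 2
      simp only [Fin.sum_univ_three, hy, if_true]
      fin_cases d <;> simp at hd <;> omega
  · by_cases h0 : ∀ d, ac S d y = 0
    · have h3 : y ∈ X S := by
        refine mem_X.2 ?_
        rintro u hu ⟨d, hd⟩
        have := card_eq_zero.1 (h0 d)
        have e2 : u ∈ S.filter (fun v => on d v y) := by simp [hu, hd]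
        rw [this] at e2
        simp at e2
      simp only [Fin.sum_univ_three, h0, hy, h3, if_true, if_false]
      omega
    · push Not at h0
      obtain ⟨d, hd⟩ := h0
      by_cases h1 : ac S d y = 1 ∧ ∀ e, e ≠ d → ac S e y = 0
      · have h3 : y ∈ E1 S := by
          obtain ⟨z, hz⟩ := card_eq_one.1 h1.1
          have e1 : z ∈ S.filter (fun v => on d v y) := by rw [hz]; simp
          simp only [mem_filter] at e1
          refine mem_biUnion.2 ⟨z, e1.1, mem_P.2 ⟨⟨d, e1.2⟩, ?_⟩⟩
          rintro u hu hne ⟨e, he⟩
          have e2 : u ∈ S.filter (fun v => on e v y) := by simp [hu, he]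
          by_cases hed : e = d
          · subst hed
            rw [hz, mem_singleton] at e2
            exact hne e2
          · have := card_eq_zero.1 (h1.2 e hed)
            rw [this] at e2
            simp at e2
        simp only [Fin.sum_univ_three, hy, h3, if_true, if_false]
        have h4 := h1.1
        fin_cases d <;> simp at h4 <;> omega
      · have h4 : 2 ≤ ac S d y ∨ ∃ e, e ≠ d ∧ 1 ≤ ac S e y := by
          by_contra hcon
          push Not at hcon
          refine h1 ⟨by omega, fun e he => ?_⟩
          have := hcon.2 e he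
          omega
        simp only [Fin.sum_univ_three, hy, if_false]
        rcases h4 with h4 | ⟨e, he, h4⟩
        · fin_cases d <;> simp at h4 hd <;> omega
        · fin_cases d <;> fin_cases e <;> simp at h4 hd he <;> omega

theorem ineq1 (S : Finset (V n)) :
    2 * n ^ 3 + ∑ d : Fin 3, ∑ y : V n, (ac S d y - 2) + 2 * S.card ≤
      3 * n * S.card + (E1 S).card + 2 * (X S).card := by
  have h1 := sum_le_sum fun (y : V n) (_ : y ∈ (univ : Finset (V n))) => point S y
  simp only [sum_add_distrib, ← mul_sum] at h1
  rw [sum_comm (s := (univ : Finset (V n))) (t := (univ : Finset (Fin 3))),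
    sum_comm (s := (univ : Finset (V n))) (t := (univ : Finset (Fin 3)))] at h1
  have h2 : ∑ d : Fin 3, ∑ y : V n, ac S d y ≤ ∑ d : Fin 3, n * S.card :=
    sum_le_sum fun d _ => sum_ac_le S d
  have h3 : ∑ y : V n, 2 = 2 * n ^ 3 := by simp [V, mul_comm]
  have h4 : ∑ y : V n, (if y ∈ S then 1 else 0) = S.card := by simp
  have h5 : ∑ y : V n, (if y ∈ E1 S then 1 else 0) = (E1 S).card := by simp
  have h6 : ∑ y : V n, (if y ∈ X S then 1 else 0) = (X S).card := by simp
  rw [h3, h4, h5, h6] at h1
  have h7 : ∑ d : Fin 3, n * S.card = 3 * n * S.card := by simp; ring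
  omega

end Pool.Agent.H321.IR
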