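import Pool.Agent.H321.IR.Plane

set_option autoImplicit false

namespace Pool.Agent.H321.IR

open Finset

variable {n : ℕ}

/-- every vertex of type `d` is contained in two planes with many elements -/
theorem T_planes {S : Finset (V n)} {d e f : Fin 3} (t : Tri d e f) {u : V n} (hu : u ∈ T S d) :
    n - 1 ≤ min (S.filter (fun v => v f = u f)).card (n - 1) +
      min (S.filter (fun v => v e = u e)).card (n - 1) := by
  have hu' := hu
  simp only [T, mem_filter] at hu'
  obtain ⟨huS, w, hw, hwu, hon⟩ := hu'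
  have hwP : w ∈ P S u := by rw [hw]; simp
  have h1 : (univ : Finset (Fin n)) ⊆ {w d} ∪
      ((S.filter (fun v => v f = u f)).image (fun v => v d) ∪
        (S.filter (fun v => v e = u e)).image (fun v => v d)) := by
    intro c _
    by_cases hc : c = w d
    · simp [hc]
    refine mem_union_right _ ?_
    set y : V n := fun i => if i = d then c else u i with hy
    have hyon : on d u y := by
      intro i hi
      simp [hy, hi]
    have hyP : y ∉ P S u := by
      rw [hw, mem_singleton]
      intro h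
      apply hc
      rw [← h]
      simp [hy]
    have h2 : ∃ u' ∈ S, u' ≠ u ∧ nr u' y := by
      by_contra hcon
      push Not at hcon
      exact hyP (mem_P.2 ⟨⟨d, hyon⟩, fun u' h' hne => hcon u' h' hne⟩)
    obtain ⟨u', hu'S, hne, g, hg⟩ := h2
    rcases t.all g with r | r | r
    · subst r
      exact absurd (T_alone hu hu'S (on_trans hg (on_symm hyon))) hne
    · subst r
      -- `u'` agrees with `y` in `d`, `f`
      refine mem_union_left _ (mem_image.2 ⟨u', mem_filter.2 ⟨hu'S, ?_⟩, ?_⟩)
      · rw [hg f t.ef.symm]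
        simp [hy, t.df.symm]
      · rw [hg d t.de]
        simp [hy]
    · subst r
      refine mem_union_right _ (mem_image.2 ⟨u', mem_filter.2 ⟨hu'S, ?_⟩, ?_⟩)
      · rw [hg e t.ef]
        simp [hy, t.de.symm]
      · rw [hg d t.df]
        simp [hy]
  have h2 := card_le_card h1
  have h3 := card_union_le ({w d} : Finset (Fin n))
      ((S.filter (fun v => v f = u f)).image (fun v => v d) ∪
        (S.filter (fun v => v e = u e)).image (fun v => v d))
  have h4 := card_union_le ((S.filter (fun v => v f = u f)).image (fun v => v d))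
        ((S.filter (fun v => v e = u e)).image (fun v => v d))
  have h5 : ((S.filter (fun v => v f = u f)).image (fun v => v d)).card ≤
    (S.filter (fun v => v f = u f)).card := card_image_le
  have h6 : ((S.filter (fun v => v e = u e)).image (fun v => v d)).card ≤
    (S.filter (fun v => v e = u e)).card := card_image_le
  simp only [card_univ, Fintype.card_fin, card_singleton] at h2 h3
  omega

/-- the undominated vertices on a free line -/
theorem free_line {S : Finset (V n)} {d e f : Fin 3} (t : Tri d e f) {u w : V n}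
    (hon : on d u w) :
    ((X S).filter (fun x => on e x w)).card ≤ n - hc S e f (u f) := by
  have h1 : ((X S).filter (fun x => on e x w)).card ≤
      (((S.filter (fun v => v f = u f)).image (fun v => v e))ᶜ).card := by
    refine card_le_card_of_injOn (fun x => x e) ?_ ?_
    · intro x hx
      simp only [coe_filter, Set.mem_ofPred_eq] at hx
      obtain ⟨hx, hxw⟩ := hx
      simp only [coe_compl, Set.mem_compl_iff, mem_coe, mem_image, mem_filter, not_exists, not_and,
        and_imp]
      intro v hv hvf hve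
      refine mem_X.1 hx v hv ⟨d, (on_iff t).2 ⟨hve, ?_⟩⟩
      rw [hvf, hxw f t.ef.symm, hon f t.df.symm]
    · intro x hx x' hx' h
      simp only [coe_filter, Set.mem_ofPred_eq] at hx hx'
      exact ext3 t (by rw [hx.2 d t.de, hx'.2 d t.de]) h (by rw [hx.2 f t.ef.symm, hx'.2 f t.ef.symm])
  rw [card_compl, Fintype.card_fin] at h1
  exact h1

theorem XU_T {S : Finset (V n)} {d e f : Fin 3} (t : Tri d e f) {u : V n} (hu : u ∈ T S d) :
    (XU S u).card ≤ (n - hc S e f (u f)) + (n - hc S f e (u e)) := by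
  have hu' := hu
  simp only [T, mem_filter] at hu'
  obtain ⟨huS, w, hw, hwu, hon⟩ := hu'
  have h1 : XU S u ⊆ (X S).filter (fun x => on e x w) ∪ (X S).filter (fun x => on f x w) := by
    intro x hx
    simp only [XU, mem_filter] at hx
    obtain ⟨hx, hxw⟩ := hx
    obtain ⟨g, hg⟩ := hxw w (by rw [hw]; simp)
    rcases t.all g with r | r | r
    · subst r
      exact absurd ⟨g, on_trans hon (on_symm hg)⟩ (mem_X.1 hx u huS)
    · subst r
      exact mem_union_left _ (mem_filter.2 ⟨hx, hg⟩)
    · subst r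
      exact mem_union_right _ (mem_filter.2 ⟨hx, hg⟩)
  calc (XU S u).card ≤ _ := card_le_card h1
    _ ≤ _ := card_union_le _ _
    _ ≤ _ := Nat.add_le_add (free_line t hon) (free_line t.swap hon)

/-- the elements of type `d` -/
theorem T_sum (S : Finset (V n)) {d e f : Fin 3} (t : Tri d e f) :
    ∑ u ∈ T S d, ((P S u).card + 2 * (XU S u).card) ≤
      (3 * n + 2) * (T S d).card + ∑ y : V n, (ac S d y - 2) := by
  have h1 := plane_sum S t
  have h2 := plane_sum S t.swap
  have h3 : ∑ u ∈ T S d, (4 * (XU S u).card + 2 * (n - 1)) ≤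
      ∑ u ∈ T S d, ((4 * (n - hc S e f (u f)) +
        2 * min (S.filter (fun v => v f = u f)).card (n - 1)) +
       (4 * (n - hc S f e (u e)) +
        2 * min (S.filter (fun v => v e = u e)).card (n - 1))) := by
    refine sum_le_sum fun u hu => ?_
    have := XU_T t hu
    have := T_planes t hu
    omega
  rw [sum_add_distrib, sum_add_distrib, ← mul_sum, sum_const, smul_eq_mul] at h3
  have h4 : ∑ u ∈ T S d, (P S u).card = (T S d).card := by
    rw [card_eq_sum_ones]
    refine sum_congr rfl fun u hu => ?_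
    simp only [T, mem_filter] at hu
    obtain ⟨-, w, hw, -⟩ := hu
    rw [hw, card_singleton]
  rw [sum_add_distrib, ← mul_sum, h4]
  rcases Nat.eq_zero_or_pos n with hn | hn
  · subst hn
    have hT : T S d = ∅ := by
      refine eq_empty_of_forall_notMem fun u _ => ?_
      exact (u 0).elim0
    simp [hT]
  obtain ⟨k, rfl⟩ : ∃ k, n = k + 1 := ⟨n - 1, by omega⟩
  have e1 : k + 1 - 1 = k := by omega
  rw [e1] at h3 h1 h2
  nlinarith

/-- two private neighbours determine the undominated vertex -/
theorem XU_two {S : Finset (V n)} {u : V n} (huS : u ∈ S) (h2 : 1 < (P S u).card) :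
    (XU S u).card ≤ 1 := by
  obtain ⟨w1, hw1, w2, hw2, hne⟩ := one_lt_card.1 h2
  refine card_le_one.2 fun x hx x' hx' => ?_
  simp only [XU, mem_filter] at hx hx'
  have key : ∀ x : V n, ¬ nr u x → nr x w1 → nr x w2 →
      ∃ d e f : Fin 3, Tri d e f ∧ w1 e = u e ∧ w1 f = u f ∧ w1 d = x d ∧ w2 d = u d ∧ w2 f = u f ∧
        w2 e = x e ∧ x f = u f ∧ w1 d ≠ u d ∧ w2 e ≠ u e := by
    intro x hux hx1 hx2
    obtain ⟨d, hd⟩ := (mem_P.1 hw1).1
    obtain ⟨e, he⟩ := (mem_P.1 hw2).1
    obtain ⟨a, ha⟩ := hx1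
    obtain ⟨b, hb⟩ := hx2
    have hda : a ≠ d := by
      rintro rfl; exact hux ⟨a, on_trans hd (on_symm ha)⟩
    have heb : b ≠ e := by
      rintro rfl; exact hux ⟨b, on_trans he (on_symm hb)⟩
    have hw1u : w1 ≠ u := by
      rintro rfl; exact hux ⟨a, on_symm ha⟩
    have hw2u : w2 ≠ u := by
      rintro rfl; exact hux ⟨b, on_symm hb⟩
    have hd' : w1 d ≠ u d := by
      intro h; apply hw1u; funext i
      by_cases hi : i = d
      · rw [hi]; exact h
      · exact (hd i hi).symm
    have he' : w2 e ≠ u e := by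
      intro h; apply hw2u; funext i
      by_cases hi : i = e
      · rw [hi]; exact h
      · exact (he i hi).symm
    -- `x d = w1 d ≠ u d`
    have hxd : x d = w1 d := ha d hda.symm
    have hxe : x e = w2 e := hb e heb.symm
    have hde : d ≠ e := by
      rintro rfl
      -- then `w1`, `w2` agree with `u` outside of `d`, and `x d = w1 d = w2 d`
      apply hne; funext i
      by_cases hi : i = d
      · rw [hi, ← hxd, hxe]
      · rw [← hd i hi, ← he i hi]
    -- `a = e`: `x` and `w1` agree outside of `a`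
    have hae : a = e := by
      by_contra hcon
      have h3 : x e = w1 e := ha e (fun h => hcon h.symm)
      rw [← hd e hde.symm, hxe] at h3
      exact he' h3
    have hbd : b = d := by
      by_contra hcon
      have h3 : x d = w2 d := hb d (fun h => hcon h.symm)
      rw [← he d hde, hxd] at h3
      exact hd' h3
    obtain ⟨f, hf1, hf2, hf3⟩ : ∃ f : Fin 3, d ≠ f ∧ e ≠ f ∧ ∀ i, i = d ∨ i = e ∨ i = f := by
      clear * - hde
      revert d e; decide
    refine ⟨d, e, f, ⟨hde, hf1, hf2, hf3⟩, (hd e hde.symm).symm, (hd f hf1.symm).symm, hxd.symm,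
      (he d hde).symm, (he f hf2.symm).symm, hxe.symm, ?_, hd', he'⟩
    rw [ha f (by rw [hae]; exact hf2.symm), (hd f hf1.symm)]
  obtain ⟨d, e, f, t, a1, a2, a3, a4, a5, a6, a7, a8, a9⟩ :=
    key x (mem_X.1 hx.1 u huS) (hx.2 w1 hw1) (hx.2 w2 hw2)
  obtain ⟨d', e', f', t', b1, b2, b3, b4, b5, b6, b7, b8, b9⟩ :=
    key x' (mem_X.1 hx'.1 u huS) (hx'.2 w1 hw1) (hx'.2 w2 hw2)
  have hdd : d' = d := by
    rcases t.all d' with r | r | r
    · exact r
    · rw [r] at b8; exact absurd a1 b8
    · rw [r] at b8; exact absurd a2 b8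
  have hee : e' = e := by
    rcases t.all e' with r | r | r
    · rw [r] at b9; exact absurd a4 b9
    · exact r
    · rw [r] at b9; exact absurd a5 b9
  subst hdd hee
  have hff : f' = f := by
    rcases t.all f' with r | r | r
    · exact absurd r.symm t'.df
    · exact absurd r.symm t'.ef
    · exact r
  subst hff
  exact ext3 t (by rw [← a3, ← b3]) (by rw [← a6, ← b6]) (by rw [a7, b7])

/-- `S` is irredundant -/
def Irr (S : Finset (V n)) : Prop := ∀ u ∈ S, (P S u).Nonempty

theorem X_cover {S : Finset (V n)} (hS : ∀ S', S ⊆ S' → Irr S' → S' = S) :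
    X S ⊆ S.biUnion (XU S) := by
  intro x hx
  have hxS : x ∉ S := fun h => mem_X.1 hx x h (nr_refl x)
  have h1 : ¬ Irr (insert x S) := fun h => by
    have := hS _ (subset_insert x S) h
    exact hxS (by rw [← this]; exact mem_insert_self x S)
  simp only [Irr] at h1
  push Not at h1
  obtain ⟨u, hu, hu2⟩ := h1
  have hux : u ≠ x := by
    rintro rfl
    have h3 : u ∈ P (insert u S) u := mem_P.2 ⟨nr_refl u, fun u' h' hne => by
      rcases mem_insert.1 h' with r | r
      · exact absurd r hne
      · exact mem_X.1 hx u' r⟩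
    rw [hu2] at h3
    simp at h3
  have huS : u ∈ S := by
    rcases mem_insert.1 hu with r | r
    · exact absurd r hux
    · exact r
  refine mem_biUnion.2 ⟨u, huS, mem_filter.2 ⟨hx, fun w hw => ?_⟩⟩
  by_contra hcon
  have h3 : w ∈ P (insert x S) u := by
    obtain ⟨h4, h5⟩ := mem_P.1 hw
    refine mem_P.2 ⟨h4, fun u' h' hne => ?_⟩
    rcases mem_insert.1 h' with r | r
    · rw [r]; exact hcon
    · exact h5 u' r hne
  rw [hu2] at h3
  simp at h3

theorem bound {S : Finset (V n)} (hI : Irr S) (hS : ∀ S', S ⊆ S' → Irr S' → S' = S) :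
    n ^ 2 ≤ 3 * S.card := by
  classical
  rcases Nat.eq_zero_or_pos n with hn | hn
  · subst hn; simp
  have hX : (X S).card ≤ ∑ u ∈ S, (XU S u).card :=
    (card_le_card (X_cover hS)).trans card_biUnion_le
  have hE : (E1 S).card ≤ ∑ u ∈ S, (P S u).card := card_biUnion_le
  have hT : ∀ d, ∑ u ∈ T S d, ((P S u).card + 2 * (XU S u).card) ≤
      (3 * n + 2) * (T S d).card + ∑ y : V n, (ac S d y - 2) := by
    intro d
    obtain ⟨e, f, t⟩ : ∃ e f : Fin 3, Tri d e f := by
      have : ∀ d : Fin 3, ∃ e f : Fin 3, d ≠ e ∧ d ≠ f ∧ e ≠ f ∧ ∀ i, i = d ∨ i = e ∨ i = f := by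
        decide
      obtain ⟨e, f, h1, h2, h3, h4⟩ := this d
      exact ⟨e, f, ⟨h1, h2, h3, h4⟩⟩
    exact T_sum S t
  set U : Finset (V n) := (univ : Finset (Fin 3)).biUnion (T S) with hU
  have hUS : U ⊆ S := by
    intro u hu
    obtain ⟨d, -, hd⟩ := mem_biUnion.1 hu
    exact (mem_filter.1 hd).1
  have hdisj : ((univ : Finset (Fin 3)) : Set (Fin 3)).PairwiseDisjoint (T S) := by
    intro d _ d' _ hne
    refine disjoint_left.2 fun u hu hu' => ?_
    simp only [T, mem_filter] at hu hu'
    obtain ⟨-, w, hw, hwu, ho⟩ := hu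
    obtain ⟨-, w', hw', -, ho'⟩ := hu'
    have : w' = w := by
      have h3 : w' ∈ P S u := by rw [hw']; simp
      rw [hw] at h3
      simpa using h3
    subst this
    exact hwu (on_two hne ho ho').symm
  have hR : ∀ u ∈ S \ U, (P S u).card + 2 * (XU S u).card ≤ 3 * n + 2 := by
    intro u hu
    obtain ⟨huS, huU⟩ := mem_sdiff.1 hu
    have h1 : 0 < (P S u).card := card_pos.2 (hI u huS)
    by_cases h2 : 1 < (P S u).card
    · have h3 := XU_two huS h2
      have h4 := card_P_le S u
      omega
    · have h3 : (P S u).card = 1 := by omega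
      obtain ⟨w, hw⟩ := card_eq_one.1 h3
      have hwP : w ∈ P S u := by rw [hw]; simp
      have hwu : w = u := by
        by_contra hwu
        obtain ⟨d, hd⟩ := (mem_P.1 hwP).1
        exact huU (mem_biUnion.2 ⟨d, mem_univ _, mem_filter.2 ⟨huS, w, hw, hwu, hd⟩⟩)
      have h4 : XU S u = ∅ := by
        refine eq_empty_of_forall_notMem fun x hx => ?_
        simp only [XU, mem_filter] at hx
        have h5 := hx.2 w hwP
        rw [hwu] at h5
        exact mem_X.1 hx.1 u huS (nr_symm h5)
      rw [h3, h4, card_empty]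
      omega
  have hsum : ∑ u ∈ S, ((P S u).card + 2 * (XU S u).card) ≤
      (3 * n + 2) * S.card + ∑ d : Fin 3, ∑ y : V n, (ac S d y - 2) := by
    have h1 : ∑ u ∈ S, ((P S u).card + 2 * (XU S u).card) =
        ∑ u ∈ S \ U, ((P S u).card + 2 * (XU S u).card) +
          ∑ u ∈ U, ((P S u).card + 2 * (XU S u).card) := (sum_sdiff hUS).symm
    have h2 : ∑ u ∈ U, ((P S u).card + 2 * (XU S u).card) =
        ∑ d : Fin 3, ∑ u ∈ T S d, ((P S u).card + 2 * (XU S u).card) := sum_biUnion hdisj
    have h3 : U.card = ∑ d : Fin 3, (T S d).card := card_biUnion hdisj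
    have h4 : (S \ U).card + U.card = S.card := card_sdiff_add_card_eq_card hUS
    have h5 : ∑ u ∈ S \ U, ((P S u).card + 2 * (XU S u).card) ≤ (3 * n + 2) * (S \ U).card := by
      calc _ ≤ ∑ u ∈ S \ U, (3 * n + 2) := sum_le_sum hR
        _ = _ := by rw [sum_const, smul_eq_mul, mul_comm]
    have h6 : ∑ d : Fin 3, ∑ u ∈ T S d, ((P S u).card + 2 * (XU S u).card) ≤
        ∑ d : Fin 3, ((3 * n + 2) * (T S d).card + ∑ y : V n, (ac S d y - 2)) :=
      sum_le_sum fun d _ => hT d
    rw [sum_add_distrib, ← mul_sum, ← h3] at h6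
    rw [h1, h2, ← h4, mul_add]
    omega
  rw [sum_add_distrib, ← mul_sum] at hsum
  have h1 := ineq1 S
  have h2 : 2 * n ^ 3 ≤ 6 * n * S.card := by nlinarith
  have h3 : n * n ^ 2 ≤ n * (3 * S.card) := by nlinarith
  exact Nat.le_of_mul_le_mul_left h3 hn

end Pool.Agent.H321.IR
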