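import Pool.Agent.H321.IR.Basic

set_option autoImplicit false

namespace Pool.Agent.H321.IR

open Finset

variable {n : ℕ}

/-- abstract plane inequality -/
theorem fib {α : Type*} [DecidableEq α] (n : ℕ) (A B : Finset α) (g : α → Fin n) (hBA : B ⊆ A)
    (halone : ∀ t ∈ B, ∀ v ∈ A, g v = g t → v = t) :
    A.card + B.card ≤ 2 * (A.image g).card + ∑ c : Fin n, ((A.filter (fun v => g v = c)).card - 2)
      ∧ B.card ≤ (A.image g).card := by
  have hA : A.card = ∑ c ∈ A.image g, (A.filter (fun v => g v = c)).card :=
    card_eq_sum_card_image g A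
  have hB : B.card = ∑ c ∈ A.image g, (B.filter (fun v => g v = c)).card :=
    card_eq_sum_card_fiberwise fun x hx => mem_coe.2 (mem_image_of_mem g (hBA hx))
  have hle : ∀ c, (B.filter (fun v => g v = c)).card ≤ 1 := fun c => by
    refine card_le_one.2 fun a ha b hb => ?_
    simp only [mem_filter] at ha hb
    exact halone b hb.1 a (hBA ha.1) (ha.2.trans hb.2.symm)
  constructor
  · have h1 : ∑ c ∈ A.image g, ((A.filter (fun v => g v = c)).card +
        (B.filter (fun v => g v = c)).card) ≤
        ∑ c ∈ A.image g, (2 + ((A.filter (fun v => g v = c)).card - 2)) := by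
      refine sum_le_sum fun c hc => ?_
      by_cases hb : (B.filter (fun v => g v = c)).Nonempty
      · obtain ⟨t, ht⟩ := hb
        simp only [mem_filter] at ht
        have h2 : (A.filter (fun v => g v = c)).card ≤ 1 := by
          refine card_le_one.2 fun a ha b hb => ?_
          simp only [mem_filter] at ha hb
          rw [halone t ht.1 a ha.1 (ha.2.trans ht.2.symm), halone t ht.1 b hb.1 (hb.2.trans ht.2.symm)]
        have := hle c
        omega
      · rw [not_nonempty_iff_eq_empty] at hb
        rw [hb, card_empty]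
        omega
    rw [sum_add_distrib, ← hA, ← hB, sum_add_distrib] at h1
    have h3 : ∑ c ∈ A.image g, ((A.filter (fun v => g v = c)).card - 2) ≤
        ∑ c : Fin n, ((A.filter (fun v => g v = c)).card - 2) :=
      sum_le_sum_of_subset (subset_univ _)
    simp only [sum_const, smul_eq_mul] at h1
    omega
  · rw [hB]
    calc ∑ c ∈ A.image g, (B.filter (fun v => g v = c)).card ≤ ∑ c ∈ A.image g, 1 :=
          sum_le_sum fun c _ => hle c
      _ = (A.image g).card := by simp

/-- numerical form -/
theorem plane_num (n m h τ ζ φ : ℕ) (h1 : m + τ ≤ 2 * h + ζ) (h2 : τ ≤ h) (h3 : h ≤ n)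
    (hφ : φ ≤ m) (hφ' : φ ≤ n - 1) :
    4 * (τ * (n - h)) + 2 * (τ * φ) ≤ 4 * n * τ + n * ζ := by
  obtain ⟨k, rfl⟩ := Nat.exists_eq_add_of_le h3
  have e1 : h + k - h = k := by omega
  rw [e1]
  -- need 2 τ φ ≤ 4 h τ + (h + k) ζ
  have key : 2 * (τ * φ) ≤ 4 * h * τ + (h + k) * ζ := by
    by_cases hc : 2 * τ ≤ h + k
    · have h4 : φ + τ ≤ 2 * h + ζ := by omega
      have h5 : 2 * (τ * (φ + τ)) ≤ 2 * (τ * (2 * h + ζ)) := by gcongr
      have h6 : 2 * τ * ζ ≤ (h + k) * ζ := by gcongr
      nlinarith
    · have h4 : φ ≤ 2 * h := by omega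
      have h5 : 2 * (τ * φ) ≤ 2 * (τ * (2 * h)) := by gcongr
      nlinarith [Nat.zero_le ((h + k) * ζ)]
  nlinarith

/-- three different coordinates -/
structure Tri (d e f : Fin 3) : Prop where
  de : d ≠ e
  df : d ≠ f
  ef : e ≠ f
  all : ∀ i, i = d ∨ i = e ∨ i = f

theorem Tri.swap {d e f : Fin 3} (h : Tri d e f) : Tri d f e :=
  ⟨h.df, h.de, h.ef.symm, fun i => by rcases h.all i with r | r | r <;> simp [r]⟩

theorem on_iff {d e f : Fin 3} (t : Tri d e f) {u w : V n} : on d u w ↔ u e = w e ∧ u f = w f := by
  constructor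
  · intro h; exact ⟨h e t.de.symm, h f t.df.symm⟩
  · rintro ⟨h1, h2⟩ i hi
    rcases t.all i with r | r | r
    · exact absurd r hi
    · rw [r]; exact h1
    · rw [r]; exact h2

theorem ext3 {d e f : Fin 3} (t : Tri d e f) {u w : V n} (h1 : u d = w d) (h2 : u e = w e)
    (h3 : u f = w f) : u = w := by
  funext i
  rcases t.all i with r | r | r <;> rw [r] <;> assumption

/-- the number of lines in direction `d` which meet `S`, in the plane `v f = p` -/
def hc (S : Finset (V n)) (e f : Fin 3) (p : Fin n) : ℕ :=
  ((S.filter (fun v => v f = p)).image (fun v => v e)).card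

theorem hc_le (S : Finset (V n)) (e f : Fin 3) (p : Fin n) : hc S e f p ≤ n := by
  have := card_le_univ ((S.filter (fun v => v f = p)).image (fun v => v e))
  simpa [hc] using this

/-- the sum of the excesses over the points of a plane -/
theorem zeta_le (S : Finset (V n)) {d e f : Fin 3} (t : Tri d e f) (p : Fin n) :
    n * ∑ c : Fin n, (((S.filter (fun v => v f = p)).filter (fun v => v e = c)).card - 2) ≤
      ∑ y ∈ univ.filter (fun y : V n => y f = p), (ac S d y - 2) := by
  rw [mul_sum, ← sum_fiberwise_of_maps_to (s := univ.filter (fun y : V n => y f = p))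
    (t := (univ : Finset (Fin n))) (g := fun y => y e) (fun _ _ => mem_univ _)]
  refine sum_le_sum fun c _ => ?_
  have h1 : ∀ y ∈ (univ.filter (fun y : V n => y f = p)).filter (fun y => y e = c),
      ((S.filter (fun v => v f = p)).filter (fun v => v e = c)).card - 2 ≤ ac S d y - 2 := by
    intro y hy
    simp only [mem_filter, mem_univ, true_and] at hy
    refine Nat.sub_le_sub_right (card_le_card ?_) 2
    intro v hv
    simp only [mem_filter] at hv ⊢
    exact ⟨hv.1.1, (on_iff t).2 ⟨hv.2.trans hy.2.symm, hv.1.2.trans hy.1.symm⟩⟩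
  have h2 : n ≤ ((univ.filter (fun y : V n => y f = p)).filter (fun y => y e = c)).card := by
    have h3 : (univ : Finset (Fin n)).card ≤
        ((univ.filter (fun y : V n => y f = p)).filter (fun y => y e = c)).card := by
      refine card_le_card_of_injOn (fun b i => if i = d then b else if i = e then c else p) ?_ ?_
      · intro b _
        simp [t.df.symm, t.ef.symm, t.de.symm]
      · intro b _ b' _ h
        have := congrFun h d
        simpa using this
    simpa using h3
  calc n * (((S.filter (fun v => v f = p)).filter (fun v => v e = c)).card - 2)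
      ≤ ((univ.filter (fun y : V n => y f = p)).filter (fun y => y e = c)).card *
        (((S.filter (fun v => v f = p)).filter (fun v => v e = c)).card - 2) := by gcongr
    _ ≤ _ := by
        rw [← smul_eq_mul]
        exact card_nsmul_le_sum _ _ _ h1

/-- the elements with exactly one private neighbour, which is on the line in direction `d` -/
def T (S : Finset (V n)) (d : Fin 3) : Finset (V n) :=
  S.filter (fun u => ∃ w, P S u = {w} ∧ w ≠ u ∧ on d u w)

theorem T_alone {S : Finset (V n)} {d : Fin 3} {u v : V n} (hu : u ∈ T S d) (hv : v ∈ S)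
    (h : on d v u) : v = u := by
  simp only [T, mem_filter] at hu
  obtain ⟨-, w, hw, -, h2⟩ := hu
  by_contra hne
  have h3 : w ∈ P S u := by rw [hw]; simp
  exact (mem_P.1 h3).2 v hv hne ⟨d, on_trans h h2⟩

/-- the sum over the elements of type `d` of the number of free lines in a plane -/
theorem plane_sum (S : Finset (V n)) {d e f : Fin 3} (t : Tri d e f) :
    ∑ u ∈ T S d, (4 * (n - hc S e f (u f)) +
      2 * min (S.filter (fun v => v f = u f)).card (n - 1)) ≤
      4 * n * (T S d).card + ∑ y : V n, (ac S d y - 2) := by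
  have h0 : ∀ p : Fin n, ∑ u ∈ (T S d).filter (fun u => u f = p), (4 * (n - hc S e f (u f)) +
      2 * min (S.filter (fun v => v f = u f)).card (n - 1)) ≤
      4 * n * ((T S d).filter (fun u => u f = p)).card +
        ∑ y ∈ univ.filter (fun y : V n => y f = p), (ac S d y - 2) := by
    intro p
    have e1 : ∑ u ∈ (T S d).filter (fun u => u f = p), (4 * (n - hc S e f (u f)) +
      2 * min (S.filter (fun v => v f = u f)).card (n - 1)) =
      4 * (((T S d).filter (fun u => u f = p)).card * (n - hc S e f p)) +
      2 * (((T S d).filter (fun u => u f = p)).card *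
        min (S.filter (fun v => v f = p)).card (n - 1)) := by
      rw [sum_congr rfl (g := fun _ => 4 * (n - hc S e f p) +
        2 * min (S.filter (fun v => v f = p)).card (n - 1))]
      · rw [sum_const, smul_eq_mul]; ring
      · intro u hu
        rw [(mem_filter.1 hu).2]
    rw [e1]
    have h1 := fib n (S.filter (fun v => v f = p)) ((T S d).filter (fun u => u f = p))
      (fun v => v e) (by
        intro u hu
        simp only [mem_filter, T] at hu ⊢
        exact ⟨hu.1.1, hu.2⟩) (by
        intro u hu v hv h
        simp only [mem_filter] at hu hv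
        exact T_alone hu.1 hv.1 ((on_iff t).2 ⟨h, hv.2.trans hu.2.symm⟩))
    have h2 := plane_num n _ (hc S e f p) _ _ (min (S.filter (fun v => v f = p)).card (n - 1))
      h1.1 h1.2 (hc_le S e f p) (min_le_left _ _) (min_le_right _ _)
    exact h2.trans (Nat.add_le_add_left (zeta_le S t p) _)
  rw [← sum_fiberwise_of_maps_to (s := T S d) (t := (univ : Finset (Fin n))) (g := fun y => y f)
    (fun _ _ => mem_univ _)]
  refine (sum_le_sum fun p _ => h0 p).trans (le_of_eq ?_)
  rw [sum_add_distrib, ← mul_sum]
  congr 1
  · congr 1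
    exact (card_eq_sum_card_fiberwise fun _ _ => mem_coe.2 (mem_univ _)).symm
  · exact sum_fiberwise_of_maps_to (fun _ _ => mem_univ _) _

end Pool.Agent.H321.IR
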